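import Pool.Agent.H78.STN.Stmts2

/-!
# Board STO: row EN0, the even numbers from 6 to 10000
-/

set_option autoImplicit false

namespace Pool.STN

/-- the exceptional starting values -/
def en0_exc (s : ℕ) : Bool :=
  Nat.beq (s % 3) 0 || Nat.ble s 4 || Nat.beq s 44 || Nat.beq s 62 || Nat.beq s 70 || Nat.beq s 74

/-- a block of `n` even numbers from `s` -/
def en0_blk : ℕ → ℕ → Bool
  | 0, _ => true
  | n + 1, s => (en0_exc s || sim 70 s s 3) && en0_blk n (s + 2)

theorem en0_get : ∀ (n s : ℕ), en0_blk n s = true → ∀ i, i < n → en0_exc (s + 2 * i) = false →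
    sim 70 (s + 2 * i) (s + 2 * i) 3 = true := by
  intro n
  induction n with
  | zero =>
    intro s _ i hi
    omega
  | succ n ih =>
    intro s h i hi h3
    unfold en0_blk at h
    rw [Bool.and_eq_true, Bool.or_eq_true] at h
    obtain ⟨h1, h2⟩ := h
    rcases Nat.eq_zero_or_pos i with h0 | h0
    · subst h0
      rw [Nat.mul_zero, Nat.add_zero] at h3 ⊢
      rcases h1 with h1 | h1
      · rw [h3] at h1
        exact absurd h1 (by decide)
      · exact h1
    · obtain ⟨j, rfl⟩ : ∃ j, i = j + 1 := ⟨i - 1, by omega⟩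
      have e : s + 2 * (j + 1) = s + 2 + 2 * j := by ring
      rw [e] at h3 ⊢
      exact ih (s + 2) h2 j (by omega) h3

theorem en0_nexc (m0 : ℕ) (h4 : m0 % 3 ≠ 0) (h5 : 5 ≤ m0) (h6 : m0 ≠ 44) (h7 : m0 ≠ 62)
    (h8 : m0 ≠ 70) (h9 : m0 ≠ 74) : en0_exc m0 = false := by
  have a1 : Nat.beq (m0 % 3) 0 = false := by
    rw [Bool.eq_false_iff]; exact fun h => h4 (Nat.eq_of_beq_eq_true h)
  have a2 : Nat.ble m0 4 = false := by
    rw [Bool.eq_false_iff]; exact fun h => absurd (Nat.le_of_ble_eq_true h) (by omega)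
  have a3 : Nat.beq m0 44 = false := by
    rw [Bool.eq_false_iff]; exact fun h => h6 (Nat.eq_of_beq_eq_true h)
  have a4 : Nat.beq m0 62 = false := by
    rw [Bool.eq_false_iff]; exact fun h => h7 (Nat.eq_of_beq_eq_true h)
  have a5 : Nat.beq m0 70 = false := by
    rw [Bool.eq_false_iff]; exact fun h => h8 (Nat.eq_of_beq_eq_true h)
  have a6 : Nat.beq m0 74 = false := by
    rw [Bool.eq_false_iff]; exact fun h => h9 (Nat.eq_of_beq_eq_true h)
  unfold en0_exc
  rw [a1, a2, a3, a4, a5, a6]
  rfl

theorem en0_0 : en0_blk 500 0 = true := by decide +kernel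
theorem en0_1 : en0_blk 500 1000 = true := by decide +kernel
theorem en0_2 : en0_blk 500 2000 = true := by decide +kernel
theorem en0_3 : en0_blk 500 3000 = true := by decide +kernel
theorem en0_4 : en0_blk 500 4000 = true := by decide +kernel
theorem en0_5 : en0_blk 500 5000 = true := by decide +kernel
theorem en0_6 : en0_blk 500 6000 = true := by decide +kernel
theorem en0_7 : en0_blk 500 7000 = true := by decide +kernel
theorem en0_8 : en0_blk 500 8000 = true := by decide +kernel
theorem en0_9 : en0_blk 501 9000 = true := by decide +kernel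

theorem EN0_thm : ENStmt 0 := by
  intro m0 h1 h2 h3 h4 h5 h6 h7 h8 h9
  have hx := en0_nexc m0 h4 h5 h6 h7 h8 h9
  have key : ∀ s n, en0_blk n s = true → s % 2 = 0 → s ≤ m0 → m0 < s + 2 * n →
      sim 70 m0 m0 3 = true := by
    intro s n hs hs2 h5 h6
    obtain ⟨i, hi⟩ : ∃ i, m0 = s + 2 * i := ⟨(m0 - s) / 2, by omega⟩
    rw [hi] at hx ⊢
    exact en0_get n s hs i (by omega) hx
  rcases Nat.lt_or_ge m0 1000 with h | h
  · exact key 0 500 en0_0 (by norm_num) (by omega) (by omega)
  rcases Nat.lt_or_ge m0 2000 with h' | h'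
  · exact key 1000 500 en0_1 (by norm_num) (by omega) (by omega)
  clear h
  rcases Nat.lt_or_ge m0 3000 with h | h
  · exact key 2000 500 en0_2 (by norm_num) (by omega) (by omega)
  clear h'
  rcases Nat.lt_or_ge m0 4000 with h' | h'
  · exact key 3000 500 en0_3 (by norm_num) (by omega) (by omega)
  clear h
  rcases Nat.lt_or_ge m0 5000 with h | h
  · exact key 4000 500 en0_4 (by norm_num) (by omega) (by omega)
  clear h'
  rcases Nat.lt_or_ge m0 6000 with h' | h'
  · exact key 5000 500 en0_5 (by norm_num) (by omega) (by omega)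
  clear h
  rcases Nat.lt_or_ge m0 7000 with h | h
  · exact key 6000 500 en0_6 (by norm_num) (by omega) (by omega)
  clear h'
  rcases Nat.lt_or_ge m0 8000 with h' | h'
  · exact key 7000 500 en0_7 (by norm_num) (by omega) (by omega)
  clear h
  rcases Nat.lt_or_ge m0 9000 with h | h
  · exact key 8000 500 en0_8 (by norm_num) (by omega) (by omega)
  clear h'
  exact key 9000 501 en0_9 (by norm_num) (by omega) (by omega)

end Pool.STN
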