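import Pool.Agent.H78.STN.Stmts2

/-!
# Board STO: row EN6, the even numbers from 60000 to 70000
-/

set_option autoImplicit false

namespace Pool.STN

/-- a block of `n` even numbers from `s` -/
def en6_blk : ℕ → ℕ → Bool
  | 0, _ => true
  | n + 1, s => (Nat.beq (s % 3) 0 || sim 70 s s 3) && en6_blk n (s + 2)

theorem en6_get : ∀ (n s : ℕ), en6_blk n s = true → ∀ i, i < n → (s + 2 * i) % 3 ≠ 0 →
    sim 70 (s + 2 * i) (s + 2 * i) 3 = true := by
  intro n
  induction n with
  | zero =>
    intro s _ i hi
    omega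
  | succ n ih =>
    intro s h i hi h3
    unfold en6_blk at h
    rw [Bool.and_eq_true, Bool.or_eq_true] at h
    obtain ⟨h1, h2⟩ := h
    rcases Nat.eq_zero_or_pos i with h0 | h0
    · subst h0
      rw [Nat.mul_zero, Nat.add_zero] at h3 ⊢
      rcases h1 with h1 | h1
      · exact absurd (Nat.eq_of_beq_eq_true h1) h3
      · exact h1
    · obtain ⟨j, rfl⟩ : ∃ j, i = j + 1 := ⟨i - 1, by omega⟩
      have e : s + 2 * (j + 1) = s + 2 + 2 * j := by ring
      rw [e] at h3 ⊢
      exact ih (s + 2) h2 j (by omega) h3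

theorem en6_0 : en6_blk 500 60000 = true := by decide +kernel
theorem en6_1 : en6_blk 500 61000 = true := by decide +kernel
theorem en6_2 : en6_blk 500 62000 = true := by decide +kernel
theorem en6_3 : en6_blk 500 63000 = true := by decide +kernel
theorem en6_4 : en6_blk 500 64000 = true := by decide +kernel
theorem en6_5 : en6_blk 500 65000 = true := by decide +kernel
theorem en6_6 : en6_blk 500 66000 = true := by decide +kernel
theorem en6_7 : en6_blk 500 67000 = true := by decide +kernel
theorem en6_8 : en6_blk 500 68000 = true := by decide +kernel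
theorem en6_9 : en6_blk 501 69000 = true := by decide +kernel

theorem EN6_thm : ENStmt 6 := by
  intro m0 h1 h2 h3 h4 _ _ _ _ _
  have key : ∀ s, en6_blk 500 s = true → s % 2 = 0 → s ≤ m0 → m0 < s + 1000 →
      sim 70 m0 m0 3 = true := by
    intro s hs hs2 h5 h6
    obtain ⟨i, hi⟩ : ∃ i, m0 = s + 2 * i := ⟨(m0 - s) / 2, by omega⟩
    subst hi
    exact en6_get 500 s hs i (by omega) h4
  rcases Nat.lt_or_ge m0 61000 with h | h
  · exact key 60000 en6_0 (by norm_num) (by omega) (by omega)
  rcases Nat.lt_or_ge m0 62000 with h' | h'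
  · exact key 61000 en6_1 (by norm_num) (by omega) (by omega)
  clear h
  rcases Nat.lt_or_ge m0 63000 with h | h
  · exact key 62000 en6_2 (by norm_num) (by omega) (by omega)
  clear h'
  rcases Nat.lt_or_ge m0 64000 with h' | h'
  · exact key 63000 en6_3 (by norm_num) (by omega) (by omega)
  clear h
  rcases Nat.lt_or_ge m0 65000 with h | h
  · exact key 64000 en6_4 (by norm_num) (by omega) (by omega)
  clear h'
  rcases Nat.lt_or_ge m0 66000 with h' | h'
  · exact key 65000 en6_5 (by norm_num) (by omega) (by omega)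
  clear h
  rcases Nat.lt_or_ge m0 67000 with h | h
  · exact key 66000 en6_6 (by norm_num) (by omega) (by omega)
  clear h'
  rcases Nat.lt_or_ge m0 68000 with h' | h'
  · exact key 67000 en6_7 (by norm_num) (by omega) (by omega)
  clear h
  rcases Nat.lt_or_ge m0 69000 with h | h
  · exact key 68000 en6_8 (by norm_num) (by omega) (by omega)
  clear h'
  obtain ⟨i, hi⟩ : ∃ i, m0 = 69000 + 2 * i := ⟨(m0 - 69000) / 2, by omega⟩
  subst hi
  exact en6_get 501 69000 en6_9 i (by omega) h4

end Pool.STN
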